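import Pool.Agent.H14.Eq1

set_option maxHeartbeats 1000000

namespace Pool.Agent.Results.MP_0c0609_co.FiniteIff

open Finset Pool.Agent.H14.EqS

/-- `G` is equitably `k`-choosable: every `k`-assignment has a proper list colouring using each
colour at most `⌈|V|/k⌉ = (|V| + k - 1) / k` times. -/
def EqChoosable {V : Type} [Fintype V] (G : SimpleGraph V) (k : ℕ) : Prop :=
  ∀ L : V → Finset ℕ, (∀ v, (L v).card = k) → ∃ c : V → ℕ, (∀ v, c v ∈ L v) ∧
    (∀ u v, G.Adj u v → c u ≠ c v) ∧
    ∀ a, (univ.filter (fun v => c v = a)).card ≤ (Fintype.card V + k - 1) / k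

/-- The disjoint union of the stars `K_{1,m i}`: in star `i`, `none` is the centre and
`some j` (`j < m i`) are the leaves. -/
def stars {n : ℕ} (m : Fin n → ℕ) : SimpleGraph (Σ i : Fin n, Option (Fin (m i))) where
  Adj u v := u.1 = v.1 ∧ u.2.isNone ≠ v.2.isNone
  symm := ⟨fun _ _ h => ⟨h.1.symm, h.2.symm⟩⟩
  loopless := ⟨fun _ h => h.2 rfl⟩

theorem sumV {n : ℕ} (m : Fin n → ℕ) (φ : Fin n → Bool → ℕ) :
    ∑ v : (Σ i : Fin n, Option (Fin (m i))), φ v.1 v.2.isNone = ∑ k, (φ k true + m k * φ k false) := by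
  rw [Fintype.sum_sigma]
  refine sum_congr rfl fun k _ => ?_
  rw [Fintype.sum_option]; simp

theorem cardV {n : ℕ} (m : Fin n → ℕ) :
    Fintype.card (Σ i : Fin n, Option (Fin (m i))) = ∑ k, (m k + 1) := by
  simp

def Suff {n : ℕ} (m : Fin n → ℕ) : Prop :=
  ∀ (A : Fin n → Bool) (X Y : ℕ), 2 * (X + Y) ≤ ∑ k, (if A k then 0 else m k + 1) →
    ∃ ε : Fin n → Bool,
      2 * (X + ∑ k, if A k then (if ε k then 1 else m k) else 0) ≤ ∑ k, (m k + 1) ∧
      2 * (Y + ∑ k, if A k then (if ε k then m k else 1) else 0) ≤ ∑ k, (m k + 1)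

theorem good_pattern {n : ℕ} (m : Fin n → ℕ) (hm : ∀ k, 1 ≤ m k) (H : Suff m)
    (g h : (Σ i : Fin n, Option (Fin (m i))) → ℕ) (hgh : ∀ v, g v ≠ h v) (x y : Fin n → ℕ)
    (hxy : ∀ k, x k ≠ y k) : ∃ s, ∀ a, 2 * F Sigma.fst (fun v => v.2.isNone) g h x y s a ≤
      Fintype.card (Σ i : Fin n, Option (Fin (m i))) := by
  by_contra hc
  push Not at hc
  choose c hc using hc
  have hB : ∀ B : Fin n → Bool, ∑ v : (Σ i : Fin n, Option (Fin (m i))),
      (if v.2.isNone = true ∧ B v.1 = true then 1 else 0) ≤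
      ∑ v : (Σ i : Fin n, Option (Fin (m i))),
        (if v.2.isNone = false ∧ B v.1 = true then 1 else 0) := by
    intro B
    rw [sumV m (fun k b => if b = true ∧ B k = true then 1 else 0),
      sumV m (fun k b => if b = false ∧ B k = true then 1 else 0)]
    refine sum_le_sum fun k _ => ?_
    have := hm k
    cases B k <;> simpa
  have h12 := compl_ne _ _ g h x y hgh hxy c hc hB (fun _ => true)
  have h3 := fun s => no_three _ _ g h x y hgh hxy c hc hB (fun _ => true) _ s h12
  generalize c (fun _ => true) = c1 at h12 h3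
  generalize c (fun _ => !true) = c2 at h12 h3
  let A : Fin n → Bool := fun k => decide ((x k = c1 ∧ y k = c2) ∨ (x k = c2 ∧ y k = c1))
  let G : (Fin n → Bool) → ℕ → ℕ := fun t a => ∑ v : (Σ i : Fin n, Option (Fin (m i))),
    if A v.1 then 0 else ff v.2.isNone (g v) (h v) (if t v.1 then x v.1 else y v.1) a
  have h4 : G (fun _ => true) c1 + G (fun _ => true) c2 + G (fun _ => false) c1 +
      G (fun _ => false) c2 ≤ ∑ k, (if A k then 0 else m k + 1) := by
    have := sumV m (fun k _ => if A k then 0 else 1)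
    rw [show (∑ k, (if A k then 0 else m k + 1)) = ∑ k, ((if A k then 0 else 1) +
      m k * (if A k then 0 else 1)) from sum_congr rfl fun k _ => by split_ifs <;> omega, ← this]
    simp only [G, ← sum_add_distrib]
    refine sum_le_sum fun v _ => ?_
    have := hgh v; have := hxy v.1
    unfold ff
    rcases Bool.eq_false_or_eq_true v.2.isNone with hv | hv <;> simp [A, hv] <;> grind
  obtain ⟨t, ht⟩ : ∃ t, 2 * (G t c1 + G t c2) ≤ ∑ k, (if A k then 0 else m k + 1) := by
    by_cases e : G (fun _ => true) c1 + G (fun _ => true) c2 ≤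
      G (fun _ => false) c1 + G (fun _ => false) c2
    · exact ⟨fun _ => true, by omega⟩
    · exact ⟨fun _ => false, by omega⟩
  obtain ⟨ε, e1, e2⟩ := H A _ _ ht
  let s : Fin n → Bool := fun k => if A k then decide (x k = if ε k then c1 else c2) else t k
  have b1 : F Sigma.fst (fun v => v.2.isNone) g h x y s c1 ≤
      G t c1 + ∑ k, if A k then (if ε k then 1 else m k) else 0 := by
    have := sumV m (fun k b => if A k then (if ε k = b then 1 else 0) else 0)
    rw [show (∑ k, if A k then (if ε k then 1 else m k) else 0) =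
      ∑ k, ((if A k then (if ε k = true then 1 else 0) else 0) +
      m k * (if A k then (if ε k = false then 1 else 0) else 0)) from
        sum_congr rfl fun k _ => by cases A k <;> cases ε k <;> simp, ← this]
    simp only [G, F, ← sum_add_distrib]
    refine sum_le_sum fun v _ => ?_
    have := hgh v; have := hxy v.1
    unfold ff
    rcases Bool.eq_false_or_eq_true v.2.isNone with hv | hv <;>
      rcases Bool.eq_false_or_eq_true (ε v.1) with hw | hw <;> simp [s, A, hv, hw] <;> grind
  have b2 : F Sigma.fst (fun v => v.2.isNone) g h x y s c2 ≤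
      G t c2 + ∑ k, if A k then (if ε k then m k else 1) else 0 := by
    have := sumV m (fun k b => if A k then (if ε k = b then 0 else 1) else 0)
    rw [show (∑ k, if A k then (if ε k then m k else 1) else 0) =
      ∑ k, ((if A k then (if ε k = true then 0 else 1) else 0) +
      m k * (if A k then (if ε k = false then 0 else 1) else 0)) from
        sum_congr rfl fun k _ => by cases A k <;> cases ε k <;> simp, ← this]
    simp only [G, F, ← sum_add_distrib]
    refine sum_le_sum fun v _ => ?_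
    have := hgh v; have := hxy v.1
    unfold ff
    rcases Bool.eq_false_or_eq_true v.2.isNone with hv | hv <;>
      rcases Bool.eq_false_or_eq_true (ε v.1) with hw | hw <;> simp [s, A, hv, hw] <;> grind
  have h5 := hc s
  have h6 := h3 s
  rw [cardV] at h5
  by_cases e : c1 = c s
  · rw [← e] at h5; omega
  · have : c2 = c s := by by_contra e'; exact h6 e e'
    rw [← this] at h5; omega

theorem suff {n : ℕ} (m : Fin n → ℕ) (hm : ∀ k, 1 ≤ m k) (H : Suff m) :
    EqChoosable (stars m) 2 := by
  intro L hL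
  choose g h hgh hL' using fun v => card_eq_two.1 (hL v)
  obtain ⟨s, hs⟩ := good_pattern m hm H g h hgh (fun k => g ⟨k, none⟩) (fun k => h ⟨k, none⟩)
    (fun k => hgh _)
  set col : Fin n → ℕ := fun k => if s k then g ⟨k, none⟩ else h ⟨k, none⟩ with hcol
  obtain ⟨c, h1, h2, h3⟩ := greedy g h hgh
    ((Fintype.card (Σ i : Fin n, Option (Fin (m i))) + 2 - 1) / 2) (by omega)
    (univ.filter fun v => v.2.isNone = true ∨ g v = col v.1 ∨ h v = col v.1)
    (fun v => if v.2.isNone then col v.1 else if g v = col v.1 then h v else g v)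
    (fun a => by
      have e := hs a
      rw [filter_filter, card_filter]
      refine le_trans (le_of_eq (?_ : _ = F Sigma.fst (fun v => v.2.isNone) g h
        (fun k => g ⟨k, none⟩) (fun k => h ⟨k, none⟩) s a)) (by omega)
      · refine sum_congr rfl fun v _ => Eq.symm ?_
        have := hgh v
        show ff _ _ _ (col v.1) _ = _
        unfold ff
        rcases Bool.eq_false_or_eq_true v.2.isNone with hv | hv <;> simp [hv] <;> grind)
    _ disjoint_compl_right
  rw [union_compl] at h3
  have hc : ∀ k, c ⟨k, none⟩ = col k := fun k => by rw [h1 _ (by simp)]; simp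
  have hl : ∀ v : (Σ i : Fin n, Option (Fin (m i))), v.2.isNone = false →
      (c v = g v ∨ c v = h v) ∧ c v ≠ col v.1 := by
    intro v hv
    have := hgh v
    by_cases e : g v = col v.1 ∨ h v = col v.1
    · rw [h1 v (by simp [e])]; simp only [hv]; grind
    · have := h2 v (by rw [mem_compl, mem_filter, hv]; simpa using e); grind
  refine ⟨c, ?_, ?_, h3⟩
  · rintro ⟨k, _ | j⟩
    · rw [hL', hc, hcol]; beta_reduce; split_ifs <;> simp
    · rw [hL']; simpa using (hl ⟨k, some j⟩ rfl).1
  · rintro ⟨k, _ | j⟩ ⟨k', _ | j'⟩ ⟨e1, e2⟩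
    · simp at e2
    · rw [hc, show k = k' from e1]; exact (hl ⟨k', some j'⟩ rfl).2.symm
    · rw [hc, ← show k = k' from e1]; exact (hl ⟨k, some j⟩ rfl).2
    · simp at e2

def Nec {n : ℕ} (m : Fin n → ℕ) : Prop :=
  ∀ J : Fin n → Bool, ∃ ε : Fin n → Bool,
    ∑ k, (if J k then m k / 4 else if ε k then 1 else m k) ≤ (∑ k, (m k + 1) + 1) / 2 ∧
    ∑ k, (if J k then m k / 4 else if ε k then m k else 1) ≤ (∑ k, (m k + 1) + 1) / 2

theorem cnt (m e : ℕ) (he : e < 4) : m / 4 ≤ ∑ j : Fin m, if (j : ℕ) % 4 = e then 1 else 0 := by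
  rw [Fin.sum_univ_eq_sum_range (fun j => if j % 4 = e then 1 else 0)]
  have : ∑ j ∈ range m, (if j % 4 = e then 1 else 0) = (m + 3 - e) / 4 := by
    induction m with
    | zero => simp; omega
    | succ m ih => rw [sum_range_succ, ih]; split_ifs <;> omega
  omega

theorem nec {n : ℕ} (m : Fin n → ℕ) (H : EqChoosable (stars m) 2) : Nec m := by
  intro J
  obtain ⟨c, h1, h2, h3⟩ := H (fun v => if J v.1 then
    (match v.2 with | none => {3, 4} | some j => {3 + (j : ℕ) % 2, 1 + (j : ℕ) / 2 % 2}) else {1, 2})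
    (by
      rintro ⟨k, _ | j⟩ <;> simp only <;> split_ifs
      · rfl
      · rfl
      · exact card_pair (by omega)
      · rfl)
  have h4 : ∀ k j, c ⟨k, none⟩ ≠ c ⟨k, some j⟩ := fun k j => h2 _ _ ⟨rfl, by simp⟩
  rw [cardV] at h3
  refine ⟨fun k => decide (c ⟨k, none⟩ = 1), le_trans ?_ (h3 1), le_trans ?_ (h3 2)⟩ <;>
    rw [card_filter, Fintype.sum_sigma] <;> refine sum_le_sum fun k _ => ?_ <;>
    rw [Fintype.sum_option] <;> have a1 := h1 ⟨k, none⟩ <;> cases hJ : J k <;>
    simp only [hJ, mem_insert, mem_singleton, if_true, if_false, Bool.false_eq_true,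
      decide_eq_true_eq] at a1 ⊢
  · split_ifs with e
    · omega
    · rw [sum_congr rfl (g := fun _ => 1)]; · simp
      intro j _
      have a2 := h1 ⟨k, some j⟩; have := h4 k j
      simp [hJ] at a2; rw [if_pos (by omega)]
  · refine le_trans (cnt _ (c ⟨k, none⟩ - 3) (by omega)) (le_trans (sum_le_sum fun j _ => ?_)
      (Nat.le_add_left _ _))
    have a2 := h1 ⟨k, some j⟩; have := h4 k j
    simp [hJ] at a2; split_ifs <;> omega
  · split_ifs with e e' e'
    · omega
    · rw [sum_congr rfl (g := fun _ => 1)]; · simp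
      intro j _
      have a2 := h1 ⟨k, some j⟩; have := h4 k j
      simp [hJ] at a2; rw [if_pos (by omega)]
    · omega
    · omega
  · refine le_trans (cnt _ (c ⟨k, none⟩ - 1) (by omega)) (le_trans (sum_le_sum fun j _ => ?_)
      (Nat.le_add_left _ _))
    have a2 := h1 ⟨k, some j⟩; have := h4 k j
    simp [hJ] at a2; split_ifs <;> omega

theorem Nec.perm {n : ℕ} {m : Fin n → ℕ} (H : Nec m) (σ : Equiv.Perm (Fin n)) : Nec (m ∘ σ) := by
  intro J
  obtain ⟨ε, h1, h2⟩ := H (J ∘ σ.symm)
  rw [← Equiv.sum_comp σ, ← Equiv.sum_comp σ (fun k => m k + 1)] at h1 h2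
  exact ⟨ε ∘ σ, by simpa using h1, by simpa using h2⟩

theorem Nec.bound {n : ℕ} (hn : n ≤ 4) {m : Fin n → ℕ} (H : Nec m) (hm : Monotone m) (k : Fin n) :
    m k ≤ 1000 := by
  obtain ⟨e0, a0, b0⟩ := H fun _ => false
  obtain ⟨e1, a1, b1⟩ := H fun i => decide (i.val < 1)
  obtain ⟨e2, a2, b2⟩ := H fun i => decide (i.val < 2)
  obtain ⟨e3, a3, b3⟩ := H fun i => decide (i.val < 3)
  interval_cases n
  · exact k.elim0
  · fin_cases k
    simp [Fin.sum_univ_succ] at a0 b0 ⊢
    split_ifs at a0 b0 <;> omega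
  · have := hm (show (0 : Fin 2) ≤ 1 by decide)
    have := hm (show k ≤ 1 from Fin.le_last k)
    simp [Fin.sum_univ_succ] at a0 b0 a1 b1
    split_ifs at a0 b0 a1 b1 <;> omega
  · have := hm (show (0 : Fin 3) ≤ 1 by decide)
    have := hm (show (1 : Fin 3) ≤ 2 by decide)
    have := hm (show k ≤ 2 from Fin.le_last k)
    simp [Fin.sum_univ_succ] at a0 b0 a1 b1 a2 b2
    split_ifs at a0 b0 a1 b1 a2 b2 <;> omega
  · have := hm (show (0 : Fin 4) ≤ 1 by decide)
    have := hm (show (1 : Fin 4) ≤ 2 by decide)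
    have := hm (show (2 : Fin 4) ≤ 3 by decide)
    have := hm (show k ≤ 3 from Fin.le_last k)
    simp [Fin.sum_univ_four] at a0 b0 a1 b1 a2 b2 a3 b3
    split_ifs at a0 b0 <;> (try omega) <;> split_ifs at a1 b1 <;> (try omega) <;>
      split_ifs at a2 b2 <;> (try omega) <;> split_ifs at a3 b3 <;> omega

def kap : Fin 5 → ℕ := ![3, 4, 4, 5, 6]

theorem kap_bal : ∀ A : Fin 5 → Bool, ∃ ε : Fin 5 → Bool,
    (∑ k, if A k then (if ε k then kap k else 0) else 0) ≤
      (∑ k, if A k then (if ε k then 0 else kap k) else 0) ∧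
    2 * (∑ k, if A k then (if ε k then 0 else kap k) else 0) ≤
      2 * (∑ k, if A k then (if ε k then kap k else 0) else 0) +
      (∑ k, if A k then 0 else kap k) := by decide +kernel

theorem suff_of {n : ℕ} (κ : Fin n → ℕ) (M : ℕ) (H : ∀ A : Fin n → Bool, ∃ ε : Fin n → Bool,
    (∑ k, if A k then (if ε k then κ k else 0) else 0) ≤
      (∑ k, if A k then (if ε k then 0 else κ k) else 0) ∧
    2 * (∑ k, if A k then (if ε k then 0 else κ k) else 0) ≤
      2 * (∑ k, if A k then (if ε k then κ k else 0) else 0) +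
      (∑ k, if A k then 0 else κ k)) : Suff (fun k => M * κ k + 1) := by
  intro A X Y hXY
  beta_reduce at hXY ⊢
  obtain ⟨ε, h1, h2⟩ := H A
  have h1 := Nat.mul_le_mul_left M h1
  have h2 := Nat.mul_le_mul_left M h2
  have e1 : (∑ k, if A k then (if ε k then 1 else M * κ k + 1) else 0) =
      M * (∑ k, if A k then (if ε k then 0 else κ k) else 0) + ∑ k, if A k then 1 else 0 := by
    rw [mul_sum, ← sum_add_distrib]; exact sum_congr rfl fun k _ => by split_ifs <;> simp
  have e2 : (∑ k, if A k then (if ε k then M * κ k + 1 else 1) else 0) =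
      M * (∑ k, if A k then (if ε k then κ k else 0) else 0) + ∑ k, if A k then 1 else 0 := by
    rw [mul_sum, ← sum_add_distrib]; exact sum_congr rfl fun k _ => by split_ifs <;> simp
  have e3 : ∑ k, (M * κ k + 1 + 1) = (∑ k, if A k then (if ε k then 1 else M * κ k + 1) else 0) +
      (∑ k, if A k then (if ε k then M * κ k + 1 else 1) else 0) +
      ∑ k, (if A k then 0 else M * κ k + 1 + 1) := by
    rw [← sum_add_distrib, ← sum_add_distrib]
    exact sum_congr rfl fun k _ => by split_ifs <;> omega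
  have e4 : M * (∑ k, if A k then 0 else κ k) ≤ ∑ k, (if A k then 0 else M * κ k + 1 + 1) := by
    rw [mul_sum]; exact sum_le_sum fun k _ => by split_ifs <;> omega
  rw [mul_add, mul_left_comm, mul_left_comm M 2] at h2
  by_cases hX : X ≤ Y
  · exact ⟨ε, by omega, by omega⟩
  · refine ⟨fun k => !ε k, ?_, ?_⟩
    · rw [show (∑ k, if A k then (if (!ε k) then 1 else M * κ k + 1) else 0) =
        ∑ k, if A k then (if ε k then M * κ k + 1 else 1) else 0 from
          sum_congr rfl fun k _ => by cases ε k <;> simp]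
      omega
    · rw [show (∑ k, if A k then (if (!ε k) then M * κ k + 1 else 1) else 0) =
        ∑ k, if A k then (if ε k then 1 else M * κ k + 1) else 0 from
          sum_congr rfl fun k _ => by cases ε k <;> simp]
      omega

theorem result (n : ℕ) :
    {M : Multiset ℕ | ∃ m : Fin n → ℕ, M = univ.val.map m ∧ (∀ i, 1 ≤ m i) ∧
      EqChoosable (stars m) 2}.Finite ↔ n ≤ 4 := by
  constructor
  · intro hf
    by_contra hn
    obtain ⟨t, rfl⟩ : ∃ t, n = 5 + t := ⟨n - 5, by omega⟩
    let κ : Fin (5 + t) → ℕ := Fin.append kap (fun _ => 0)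
    refine Set.infinite_of_injective_forall_mem
      (f := fun M : ℕ => univ.val.map (fun k => M * κ k + 1)) (fun M M' e => ?_)
      (fun M => ?_) hf
    · have := congrArg Multiset.sum e
      change ∑ k, (M * κ k + 1) = ∑ k, (M' * κ k + 1) at this
      simp [Fin.sum_univ_add, κ, kap, Fin.sum_univ_five] at this
      omega
    · refine ⟨_, rfl, fun i => Nat.le_add_left _ _,
        suff _ (fun i => Nat.le_add_left _ _) (suff_of κ M fun A => ?_)⟩
      obtain ⟨ε, h1, h2⟩ := kap_bal (fun k => A (Fin.castAdd t k))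
      refine ⟨Fin.append ε (fun _ => true), ?_, ?_⟩
      · simpa [Fin.sum_univ_add, κ] using h1
      · simpa [Fin.sum_univ_add, κ] using h2
  · intro hn
    refine ((Set.Finite.pi' (fun _ : Fin n => Set.finite_Iic 1000)).image
      (fun m : Fin n → ℕ => univ.val.map m)).subset ?_
    rintro _ ⟨m, rfl, -, h⟩
    refine ⟨m, fun i => ?_, rfl⟩
    have := ((nec m h).perm (Tuple.sort m)).bound hn (Tuple.monotone_sort m) ((Tuple.sort m).symm i)
    simpa using this

end Pool.Agent.Results.MP_0c0609_co.FiniteIff
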